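import Pool.Agent.H63.CM.Defs

/-!
# Cramér's model exists

`μ` = the product (`Measure.infinitePi`) of the measures on `Bool` with mass `p m` at `true` and `1 - p m` at `false`,
`p m = ENNReal.ofReal (1 / log m)` for `m ≥ 3` (at most `1`, as `log 3 ≥ 1`) and `p m = 0` otherwise.
-/

set_option autoImplicit false

open MeasureTheory ProbabilityTheory

namespace Pool.Agent.H63.CM

private noncomputable def pr (m : ℕ) : ENNReal := if 3 ≤ m then ENNReal.ofReal (1 / Real.log m) else 0

private theorem pr_le (m : ℕ) : pr m ≤ 1 := by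
  unfold pr
  split_ifs with h
  · rw [← ENNReal.ofReal_one]
    apply ENNReal.ofReal_le_ofReal
    have h3 : (3 : ℝ) ≤ m := by exact_mod_cast h
    have h1 : 1 ≤ Real.log m := by
      rw [Real.le_log_iff_exp_le (by linarith)]
      linarith [Real.exp_one_lt_d9]
    rw [div_le_one (by linarith)]
    exact h1
  · exact zero_le

private noncomputable def nu (m : ℕ) : Measure Bool :=
  pr m • Measure.dirac true + (1 - pr m) • Measure.dirac false

private instance (m : ℕ) : IsProbabilityMeasure (nu m) := by
  constructor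
  unfold nu
  simp only [Measure.coe_add, Measure.coe_smul, Pi.add_apply, Pi.smul_apply, measure_univ, smul_eq_mul, mul_one]
  exact add_tsub_cancel_of_le (pr_le m)

private theorem nu_true (m : ℕ) : nu m {true} = pr m := by
  unfold nu
  simp

theorem exists_cramer : ∃ μ : Measure (ℕ → Bool), IsProbabilityMeasure μ ∧ IsCramer μ (fun ω => {m : ℕ | ω m = true}) := by
  have hset : ∀ m : ℕ, {ω : ℕ → Bool | m ∈ {m : ℕ | ω m = true}} = (({m} : Finset ℕ) : Set ℕ).pi (fun _ => {true}) := by
    intro m
    ext ω
    simp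
  have hone : ∀ m : ℕ, Measure.infinitePi nu {ω : ℕ → Bool | m ∈ {m : ℕ | ω m = true}} = pr m := by
    intro m
    rw [hset m, Measure.infinitePi_pi nu (fun i _ => MeasurableSet.singleton true)]
    simp [nu_true]
  have hmeas : ∀ m : ℕ, MeasurableSet {ω : ℕ → Bool | m ∈ {m : ℕ | ω m = true}} := by
    intro m
    have h := (measurable_pi_apply (X := fun _ : ℕ => Bool) m) (MeasurableSet.singleton true)
    exact h
  refine ⟨Measure.infinitePi nu, inferInstance, hmeas, ?_, ?_⟩
  · rw [iIndepSet_iff_meas_biInter hmeas]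
    intro s
    have h1 : (⋂ i ∈ s, {ω : ℕ → Bool | i ∈ {m : ℕ | ω m = true}}) = (s : Set ℕ).pi (fun _ => {true}) := by
      ext ω
      simp [Set.mem_pi]
    rw [h1, Measure.infinitePi_pi nu (fun i _ => MeasurableSet.singleton true)]
    refine Finset.prod_congr rfl fun i _ => ?_
    rw [hone i, nu_true]
  · intro m hm
    rw [hone m]
    unfold pr
    rw [if_pos hm]

end Pool.Agent.H63.CM
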